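import Mathlib

namespace Pool.Agent.Results.MP_f66848_co.HalfLimit

open Finset

/-- The multiplicity of the colour `c`: the number of vertices whose list contains `c`. -/
def mult {V : Type} [Fintype V] (L : V → Finset ℕ) (c : ℕ) : ℕ :=
  (univ.filter fun v => c ∈ L v).card

/-- `f` is a proportional `L`-colouring of `G` for the `k`-assignment `L`: it is a proper colouring
from the lists, and every colour `c` of the palette is used exactly `⌊η(c)/k⌋` or exactly
`⌈η(c)/k⌉` times. -/
def IsProportional {V : Type} [Fintype V] [DecidableEq V] (G : SimpleGraph V) (k : ℕ)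
    (L : V → Finset ℕ) (f : V → ℕ) : Prop :=
  (∀ v, f v ∈ L v) ∧ (∀ u v, G.Adj u v → f u ≠ f v) ∧
  ∀ c ∈ univ.biUnion L,
    (univ.filter fun v => f v = c).card = ⌊(mult L c : ℚ) / (k : ℚ)⌋₊ ∨
    (univ.filter fun v => f v = c).card = ⌈(mult L c : ℚ) / (k : ℚ)⌉₊

/-- `G` is proportionally `k`-choosable. -/
def PropChoosable {V : Type} [Fintype V] [DecidableEq V] (G : SimpleGraph V) (k : ℕ) : Prop :=
  ∀ L : V → Finset ℕ, (∀ v, (L v).card = k) → ∃ f : V → ℕ, IsProportional G k L f

/-- The proportional choice number: the least positive `k` for which `G` is proportionally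
`k`-choosable. -/
noncomputable def chiPC {V : Type} [Fintype V] [DecidableEq V] (G : SimpleGraph V) : ℕ :=
  sInf {k : ℕ | 1 ≤ k ∧ PropChoosable G k}

/-! ### The Mendelsohn and Dulmage argument -/

/-- the alternating closure -/
inductive Alt {X Y : Type} (g : X → Y) (P : Set Y) (h : Y → X) : Y → Prop
  | base (y : Y) : y ∈ P → y ∉ Set.range g → Alt g P h y
  | step (y : Y) : Alt g P h y → y ∈ P → Alt g P h (g (h y))

lemma mendelsohnDulmage {X Y : Type} (g : X → Y) (hg : Function.Injective g) (P : Set Y)
    (h : Y → X) (hinj : Set.InjOn h P) (R : X → Y → Prop) (hR : ∀ x, R x (g x))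
    (hR' : ∀ y ∈ P, R (h y) y) :
    ∃ g' : X → Y, Function.Injective g' ∧ (∀ x, R x (g' x)) ∧ ∀ y ∈ P, ∃ x, g' x = y := by
  classical
  let Z : Set X := {x | ∃ y, y ∈ P ∧ Alt g P h y ∧ h y = x}
  let g' : X → Y := fun x => if hx : x ∈ Z then Classical.choose hx else g x
  have hpos : ∀ y, y ∈ P → Alt g P h y → g' (h y) = y := by
    intro y hy hA
    have hx : h y ∈ Z := ⟨y, hy, hA, rfl⟩
    have hg' : g' (h y) = Classical.choose hx := dif_pos hx
    have hs := Classical.choose_spec hx
    rw [hg']
    exact hinj hs.1 hy hs.2.2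
  have hneg : ∀ x, x ∉ Z → g' x = g x := fun x hx => dif_neg hx
  have hcross : ∀ x x', x ∈ Z → x' ∉ Z → g' x ≠ g' x' := by
    rintro x x' ⟨y, hy, hA, rfl⟩ hx' heq
    rw [hpos y hy hA, hneg x' hx'] at heq
    cases hA with
    | base _ _ h2 => exact h2 ⟨x', heq.symm⟩
    | step y'' hA'' hy'' => exact hx' ⟨y'', hy'', hA'', hg heq⟩
  refine ⟨g', ?_, ?_, ?_⟩
  · intro x x' heq
    by_cases hx : x ∈ Z
    · by_cases hx' : x' ∈ Z
      · obtain ⟨y, hy, hA, rfl⟩ := hx
        obtain ⟨y', hy', hA', rfl⟩ := hx'
        rw [hpos y hy hA, hpos y' hy' hA'] at heq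
        rw [heq]
      · exact absurd heq (hcross x x' hx hx')
    · by_cases hx' : x' ∈ Z
      · exact absurd heq.symm (hcross x' x hx' hx)
      · rw [hneg x hx, hneg x' hx'] at heq
        exact hg heq
  · intro x
    by_cases hx : x ∈ Z
    · obtain ⟨y, hy, hA, rfl⟩ := hx
      rw [hpos y hy hA]
      exact hR' y hy
    · rw [hneg x hx]
      exact hR x
  · intro y hy
    by_cases hA : Alt g P h y
    · exact ⟨h y, hpos y hy hA⟩
    · have hr : y ∈ Set.range g := by
        by_contra hr
        exact hA (Alt.base y hy hr)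
      obtain ⟨x, rfl⟩ := hr
      refine ⟨x, hneg x ?_⟩
      rintro ⟨y', hy', hA', rfl⟩
      exact hA (Alt.step y' hA' hy')

lemma hallOn {α β : Type} [DecidableEq β] [Nonempty β] (P : Finset α) (t : α → Finset β)
    (h : ∀ S ⊆ P, S.card ≤ (S.biUnion t).card) :
    ∃ f : α → β, Set.InjOn f P ∧ ∀ x ∈ P, f x ∈ t x := by
  classical
  have h1 : ∀ s : Finset {x // x ∈ P}, s.card ≤ (s.biUnion fun x => t x).card := by
    intro s
    have := h (s.map (Function.Embedding.subtype _)) (by
      intro x hx
      rw [Finset.mem_map] at hx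
      obtain ⟨y, -, rfl⟩ := hx
      exact y.2)
    rw [Finset.card_map] at this
    refine this.trans (le_of_eq ?_)
    congr 1
    ext b
    simp only [Finset.mem_biUnion, Finset.mem_map, Function.Embedding.subtype_apply]
    constructor
    · rintro ⟨a, ⟨x, hx, rfl⟩, hb⟩
      exact ⟨x, hx, hb⟩
    · rintro ⟨x, hx, hb⟩
      exact ⟨x, ⟨x, hx, rfl⟩, hb⟩
  obtain ⟨f, hf, hft⟩ := (Finset.all_card_le_biUnion_card_iff_exists_injective _).1 h1
  refine ⟨fun x => if hx : x ∈ P then f ⟨x, hx⟩ else Classical.arbitrary β, ?_, ?_⟩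
  · intro x hx y hy hxy
    have hx' : x ∈ P := hx
    have hy' : y ∈ P := hy
    simp only [dif_pos hx', dif_pos hy'] at hxy
    have := hf hxy
    exact congrArg Subtype.val this
  · intro x hx
    simp only [dif_pos hx]
    exact hft ⟨x, hx⟩

/-- the slots of a list: one for each colour, a second one for each colour of `Q` -/
def slots (Q M : Finset ℕ) : Finset (ℕ × Bool) :=
  M.image (fun c => (c, false)) ∪ (M ∩ Q).image (fun c => (c, true))

lemma mem_slots {Q M : Finset ℕ} {c : ℕ} {b : Bool} :
    (c, b) ∈ slots Q M ↔ c ∈ M ∧ (b = true → c ∈ Q) := by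
  unfold slots
  rw [Finset.mem_union, Finset.mem_image, Finset.mem_image]
  cases b <;> simp

lemma card_slots (Q M : Finset ℕ) : (slots Q M).card = M.card + (M ∩ Q).card := by
  unfold slots
  rw [Finset.card_union_of_disjoint, Finset.card_image_of_injective,
    Finset.card_image_of_injective]
  · intro a b h
    simpa using h
  · intro a b h
    simpa using h
  · rw [Finset.disjoint_left]
    intro x hx hx'
    rw [Finset.mem_image] at hx hx'
    obtain ⟨a, -, rfl⟩ := hx
    obtain ⟨b, -, h⟩ := hx'
    simp at h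

lemma biUnion_slots {X : Type} (T : Finset X) (M : X → Finset ℕ) (Q : Finset ℕ) :
    (T.biUnion fun x => slots Q (M x)) = slots Q (T.biUnion M) := by
  ext ⟨c, b⟩
  simp only [Finset.mem_biUnion, mem_slots]
  constructor
  · rintro ⟨x, hx, h1, h2⟩
    exact ⟨⟨x, hx, h1⟩, h2⟩
  · rintro ⟨⟨x, hx, h1⟩, h2⟩
    exact ⟨x, hx, h1, h2⟩

/-- The assignment lemma: Hall's condition with capacities `1`, and `2` on `Q`, together with a
matching that covers `P`, gives an assignment within the capacities that uses all of `P`. -/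
lemma assign {X : Type} [Fintype X] [DecidableEq X] (M : X → Finset ℕ) (Q P : Finset ℕ)
    (H1 : ∀ T : Finset X, T.card ≤ (T.biUnion M).card + ((T.biUnion M) ∩ Q).card)
    (h : ℕ → X) (hinj : Set.InjOn h P) (hM : ∀ c ∈ P, c ∈ M (h c)) :
    ∃ f : X → ℕ, (∀ x, f x ∈ M x) ∧ (∀ c, (univ.filter fun x => f x = c).card ≤ 2) ∧
      (∀ c, c ∉ Q → (univ.filter fun x => f x = c).card ≤ 1) ∧ ∀ c ∈ P, ∃ x, f x = c := by
  classical
  have h1 : ∀ s : Finset X, s.card ≤ (s.biUnion fun x => slots Q (M x)).card := by
    intro s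
    rw [biUnion_slots, card_slots]
    exact H1 s
  obtain ⟨g, hg, hgt⟩ := (Finset.all_card_le_biUnion_card_iff_exists_injective _).1 h1
  obtain ⟨g', hg', hR, hP⟩ := mendelsohnDulmage g hg {y : ℕ × Bool | y.1 ∈ P ∧ y.2 = false}
    (fun y => h y.1) (by
      rintro ⟨a, b⟩ ⟨ha, hb⟩ ⟨a', b'⟩ ⟨ha', hb'⟩ hab
      simp only at ha hb ha' hb' hab
      subst hb hb'
      rw [hinj ha ha' hab])
    (fun x y => y ∈ slots Q (M x)) hgt (by
      rintro ⟨a, b⟩ ⟨ha, hb⟩
      simp only at ha hb
      subst hb
      rw [mem_slots]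
      exact ⟨hM a ha, by simp⟩)
  have hmem : ∀ x, (g' x).1 ∈ M x ∧ ((g' x).2 = true → (g' x).1 ∈ Q) := by
    intro x
    have := hR x
    rw [← Prod.mk.eta (p := g' x), mem_slots] at this
    exact this
  refine ⟨fun x => (g' x).1, fun x => (hmem x).1, ?_, ?_, ?_⟩
  · intro c
    have : (univ.filter fun x => (g' x).1 = c).card ≤
        (univ.image fun b : Bool => (c, b)).card := by
      apply Finset.card_le_card_of_injOn g'
      · intro x hx
        simp only [Finset.coe_filter, Finset.mem_univ, true_and, Set.mem_ofPred_eq] at hx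
        simp only [Finset.coe_image, Finset.coe_univ, Set.image_univ, Set.mem_range]
        exact ⟨(g' x).2, by rw [← hx]⟩
      · exact hg'.injOn
    refine this.trans (Finset.card_image_le.trans ?_)
    simp
  · intro c hc
    rw [Finset.card_le_one]
    intro x hx y hy
    rw [Finset.mem_filter] at hx hy
    apply hg'
    have hx2 : (g' x).2 = false := by
      by_contra hcon
      rw [Bool.not_eq_false] at hcon
      exact hc (hx.2 ▸ (hmem x).2 hcon)
    have hy2 : (g' y).2 = false := by
      by_contra hcon
      rw [Bool.not_eq_false] at hcon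
      exact hc (hy.2 ▸ (hmem y).2 hcon)
    exact Prod.ext (hx.2.trans hy.2.symm) (hx2.trans hy2.symm)
  · intro c hc
    obtain ⟨x, hx⟩ := hP (c, false) ⟨hc, rfl⟩
    exact ⟨x, by simp [hx]⟩

/-- Double counting. -/
lemma double_count {X : Type} [DecidableEq X] (T : Finset X) (M : X → Finset ℕ) (N : Finset ℕ)
    (hN : ∀ x ∈ T, M x ⊆ N) :
    ∑ x ∈ T, (M x).card = ∑ c ∈ N, (T.filter fun x => c ∈ M x).card := by
  have h1 : ∀ x ∈ T, (M x).card = ∑ c ∈ N, if c ∈ M x then 1 else 0 := by
    intro x hx
    rw [← Finset.card_filter]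
    congr 1
    ext c
    rw [Finset.mem_filter]
    exact ⟨fun h => ⟨hN x hx h, h⟩, fun h => h.2⟩
  rw [Finset.sum_congr rfl h1, Finset.sum_comm]
  refine Finset.sum_congr rfl fun c _ => ?_
  rw [Finset.card_filter]

/-- The complete bipartite graph `K_{n,m}`. -/
abbrev K (n m : ℕ) : SimpleGraph (Fin n ⊕ Fin m) := completeBipartiteGraph (Fin n) (Fin m)

lemma mult_le {n m : ℕ} (L : Fin n ⊕ Fin m → Finset ℕ) (c : ℕ) : mult L c ≤ n + m := by
  unfold mult
  refine (Finset.card_le_univ _).trans ?_
  simp

lemma finish {n m k : ℕ} (L : Fin n ⊕ Fin m → Finset ℕ) (hk : 1 ≤ k) (hnm : n + m < 2 * k)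
    (f : Fin n ⊕ Fin m → ℕ) (hf : ∀ v, f v ∈ L v) (hprop : ∀ a b, f (Sum.inl a) ≠ f (Sum.inr b))
    (h2 : ∀ c, (univ.filter fun v => f v = c).card ≤ 2)
    (h1 : ∀ c, mult L c ≤ k → (univ.filter fun v => f v = c).card ≤ 1)
    (h0 : ∀ c, c ∈ univ.biUnion L → k ≤ mult L c → ∃ v, f v = c) :
    IsProportional (K n m) k L f := by
  refine ⟨hf, ?_, ?_⟩
  · intro u v huv
    rw [completeBipartiteGraph_adj] at huv
    rcases huv with ⟨hu, hv⟩ | ⟨hu, hv⟩
    · cases u with
      | inr b => simp at hu
      | inl a =>
        cases v with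
        | inl a => simp at hv
        | inr b => exact hprop a b
    · cases u with
      | inl b => simp at hu
      | inr b =>
        cases v with
        | inr a => simp at hv
        | inl a => exact (hprop a b).symm
  · intro c hc
    have hk0 : (0 : ℚ) < k := by exact_mod_cast hk
    have hpos : 1 ≤ mult L c := by
      rw [Finset.mem_biUnion] at hc
      obtain ⟨v, -, hv⟩ := hc
      unfold mult
      rw [Nat.one_le_iff_ne_zero, ← Nat.pos_iff_ne_zero, Finset.card_pos]
      exact ⟨v, by simp [hv]⟩
    have hlt : mult L c < 2 * k := lt_of_le_of_lt (mult_le L c) hnm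
    have hceil : ∀ j : ℕ, 1 ≤ j → (j - 1) * k < mult L c → mult L c ≤ j * k →
        ⌈(mult L c : ℚ) / (k : ℚ)⌉₊ = j := by
      intro j hj h3 h4
      rw [Nat.ceil_eq_iff (by omega), lt_div_iff₀ hk0, div_le_iff₀ hk0]
      exact ⟨by exact_mod_cast h3, by exact_mod_cast h4⟩
    have hfl : ⌊(mult L c : ℚ) / (k : ℚ)⌋₊ = mult L c / k := Nat.floor_div_eq_div _ _
    rw [hfl]
    rcases lt_trichotomy (mult L c) k with h | h | h
    · have hc1 := h1 c h.le
      rw [hceil 1 le_rfl (by omega) (by omega), Nat.div_eq_of_lt h]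
      omega
    · have hc1 := h1 c h.le
      obtain ⟨v, hv⟩ := h0 c hc h.ge
      have : 0 < (univ.filter fun v => f v = c).card := Finset.card_pos.2 ⟨v, by simp [hv]⟩
      left
      rw [h, Nat.div_self hk]
      omega
    · have hc1 := h2 c
      obtain ⟨v, hv⟩ := h0 c hc h.le
      have : 0 < (univ.filter fun v => f v = c).card := Finset.card_pos.2 ⟨v, by simp [hv]⟩
      rw [hceil 2 (by omega) (by omega) (by omega)]
      have : mult L c / k = 1 := by
        rw [Nat.div_eq_iff (by omega)]
        omega
      rw [this]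
      omega

/-- The colours of multiplicity more than `k`. -/
def Qs {n m : ℕ} (k : ℕ) (L : Fin n ⊕ Fin m → Finset ℕ) : Finset ℕ :=
  (univ.biUnion L).filter fun c => k < mult L c

/-- The colours of multiplicity at least `k`. -/
def Ps {n m : ℕ} (k : ℕ) (L : Fin n ⊕ Fin m → Finset ℕ) : Finset ℕ :=
  (univ.biUnion L).filter fun c => k ≤ mult L c

lemma mem_Qs {n m k : ℕ} {L : Fin n ⊕ Fin m → Finset ℕ} {c : ℕ} :
    c ∈ Qs k L ↔ k < mult L c := by
  unfold Qs
  rw [Finset.mem_filter]
  refine ⟨fun h => h.2, fun h => ⟨?_, h⟩⟩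
  have : 0 < mult L c := by omega
  unfold mult at this
  rw [Finset.card_pos] at this
  obtain ⟨v, hv⟩ := this
  rw [Finset.mem_filter] at hv
  rw [Finset.mem_biUnion]
  exact ⟨v, Finset.mem_univ _, hv.2⟩

lemma mem_Ps {n m k : ℕ} {L : Fin n ⊕ Fin m → Finset ℕ} {c : ℕ} :
    c ∈ Ps k L ↔ c ∈ univ.biUnion L ∧ k ≤ mult L c := by
  unfold Ps
  rw [Finset.mem_filter]

/-- Case 1: few colours of multiplicity more than `k`. -/
lemma few {n m k : ℕ} (L : Fin n ⊕ Fin m → Finset ℕ) (hL : ∀ v, (L v).card = k) (hk : 1 ≤ k)
    (hnm : n + m < 2 * k) (hn : 1 ≤ n) (hq : n * (Qs k L).card < k) :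
    ∃ f, IsProportional (K n m) k L f := by
  classical
  set Q := Qs k L with hQ
  let M : Fin n ⊕ Fin m → Finset ℕ := Sum.elim (fun a => L (Sum.inl a) \ Q) (fun b => L (Sum.inr b))
  have hML : ∀ v, M v ⊆ L v := by
    intro v
    cases v with
    | inl a => exact Finset.sdiff_subset
    | inr b => exact Finset.Subset.refl _
  have H1 : ∀ T : Finset (Fin n ⊕ Fin m),
      T.card ≤ (T.biUnion M).card + ((T.biUnion M) ∩ Q).card := by
    intro T
    set N := T.biUnion M with hN
    have hsum := double_count T M N (fun x hx => Finset.subset_biUnion_of_mem M hx)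
    have hlow : k * T.card ≤ ∑ v ∈ T, (M v).card + n * Q.card := by
      have h1 : ∀ v ∈ T, k ≤ (M v).card + Sum.elim (fun _ => Q.card) (fun _ => 0) v := by
        intro v _
        cases v with
        | inl a =>
          have := Finset.le_card_sdiff Q (L (Sum.inl a))
          rw [hL] at this
          simp only [M, Sum.elim_inl]
          omega
        | inr b =>
          simp only [M, Sum.elim_inr]
          rw [hL]
          omega
      have h2 := Finset.sum_le_sum h1
      rw [Finset.sum_const, smul_eq_mul, Finset.sum_add_distrib] at h2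
      have h3 : ∑ v ∈ T, (Sum.elim (fun _ => Q.card) (fun _ => 0) v : ℕ) ≤
          ∑ v : Fin n ⊕ Fin m, (Sum.elim (fun _ => Q.card) (fun _ => 0) v : ℕ) :=
        Finset.sum_le_sum_of_subset (Finset.subset_univ T)
      rw [Fintype.sum_sum_type] at h3
      simp only [Sum.elim_inl, Sum.elim_inr, Finset.sum_const, Finset.card_univ, Fintype.card_fin,
        smul_eq_mul, mul_zero, add_zero] at h3
      rw [mul_comm k]
      omega
    have hup : ∑ c ∈ N, (T.filter fun x => c ∈ M x).card ≤ k * (N.card + (N ∩ Q).card) := by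
      have h1 : ∀ c ∈ N, (T.filter fun x => c ∈ M x).card ≤ k + if c ∈ Q then k else 0 := by
        intro c _
        have h2 : (T.filter fun x => c ∈ M x).card ≤ mult L c := by
          unfold mult
          apply Finset.card_le_card
          intro x hx
          rw [Finset.mem_filter] at hx ⊢
          exact ⟨Finset.mem_univ _, hML x hx.2⟩
        have h3 := mult_le L c
        split_ifs with h
        · omega
        · rw [hQ, mem_Qs] at h
          omega
      refine (Finset.sum_le_sum h1).trans ?_
      rw [Finset.sum_add_distrib, Finset.sum_const, ← Finset.sum_filter, Finset.sum_const,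
        smul_eq_mul, smul_eq_mul, Finset.filter_mem_eq_inter]
      apply le_of_eq
      ring
    have h5 : k * T.card < k * (N.card + (N ∩ Q).card + 1) := by
      rw [mul_add, mul_one]
      omega
    have := Nat.lt_of_mul_lt_mul_left h5
    omega
  have hne : Nonempty (Fin n ⊕ Fin m) := ⟨Sum.inl ⟨0, hn⟩⟩
  obtain ⟨h, hinj, hM⟩ := hallOn (Ps k L) (fun c => univ.filter fun v => c ∈ M v) (by
    intro S hS
    set U := S.biUnion (fun c => univ.filter fun v => c ∈ M v) with hU
    have hsum := double_count (T := U) (M := fun v => S.filter fun c => c ∈ M v) (N := S)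
      (fun v _ => Finset.filter_subset _ _)
    have hup : ∑ v ∈ U, (S.filter fun c => c ∈ M v).card ≤ k * U.card := by
      have : ∀ v ∈ U, (S.filter fun c => c ∈ M v).card ≤ k := by
        intro v _
        rw [← hL v]
        apply Finset.card_le_card
        intro c hc
        rw [Finset.mem_filter] at hc
        exact hML v hc.2
      refine (Finset.sum_le_sum this).trans ?_
      rw [Finset.sum_const, smul_eq_mul, mul_comm]
    have hlow : k * S.card ≤
        ∑ c ∈ S, (U.filter fun v => c ∈ S.filter fun c => c ∈ M v).card + n * Q.card := by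
      have h1 : ∀ c ∈ S, k ≤ (U.filter fun v => c ∈ S.filter fun c => c ∈ M v).card +
          if c ∈ Q then n else 0 := by
        intro c hc
        have h2 : k ≤ mult L c := (mem_Ps.1 (hS hc)).2
        have h3 : (U.filter fun v => c ∈ S.filter fun c => c ∈ M v) =
            univ.filter fun v => c ∈ M v := by
          ext v
          simp only [Finset.mem_filter, hU, Finset.mem_biUnion, Finset.mem_univ, true_and]
          constructor
          · rintro ⟨-, -, h⟩
            exact h
          · intro h
            exact ⟨⟨c, hc, h⟩, hc, h⟩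
        rw [h3]
        unfold mult at h2
        refine h2.trans ?_
        split_ifs with hcQ
        · have h4 : (univ.filter fun v => c ∈ L v) ⊆
              (univ.filter fun v => c ∈ M v) ∪ (univ : Finset (Fin n)).image Sum.inl := by
            intro v hv
            rw [Finset.mem_filter] at hv
            rw [Finset.mem_union]
            cases v with
            | inl a => right; simp
            | inr b => left; simpa [M] using hv.2
          refine (Finset.card_le_card h4).trans ((Finset.card_union_le _ _).trans ?_)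
          gcongr
          refine Finset.card_image_le.trans ?_
          simp
        · rw [add_zero]
          apply Finset.card_le_card
          intro v hv
          rw [Finset.mem_filter] at hv ⊢
          refine ⟨Finset.mem_univ _, ?_⟩
          cases v with
          | inl a =>
            simp only [M, Sum.elim_inl, Finset.mem_sdiff]
            exact ⟨hv.2, hcQ⟩
          | inr b => exact hv.2
      have h2 := Finset.sum_le_sum h1
      rw [Finset.sum_const, smul_eq_mul, Finset.sum_add_distrib, ← Finset.sum_filter,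
        Finset.sum_const, smul_eq_mul] at h2
      have h3 : (S.filter fun c => c ∈ Q).card ≤ Q.card := by
        apply Finset.card_le_card
        intro c hc
        exact (Finset.mem_filter.1 hc).2
      have h4 : (S.filter fun c => c ∈ Q).card * n ≤ n * Q.card := by
        rw [mul_comm]
        exact Nat.mul_le_mul_left _ h3
      rw [mul_comm k]
      omega
    have h5 : k * S.card < k * (U.card + 1) := by
      rw [mul_add, mul_one]
      omega
    have := Nat.lt_of_mul_lt_mul_left h5
    omega)
  obtain ⟨f, hf, hf2, hf1, hf0⟩ := assign M Q (Ps k L) H1 h hinj (fun c hc => by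
    have := hM c hc
    rw [Finset.mem_filter] at this
    exact this.2)
  refine ⟨f, finish L hk hnm f (fun v => hML v (hf v)) ?_ hf2 ?_ ?_⟩
  · intro a b hab
    have h1 := hf (Sum.inl a)
    simp only [M, Sum.elim_inl, Finset.mem_sdiff] at h1
    have h2 := hf1 _ h1.2
    rw [Finset.card_le_one] at h2
    have := h2 (Sum.inl a) (by simp) (Sum.inr b) (by simp [hab])
    simp at this
  · intro c hc
    apply hf1
    rw [hQ, mem_Qs]
    omega
  · intro c hc hkc
    exact hf0 c (mem_Ps.2 ⟨hc, hkc⟩)

/-- Case 2: many colours of multiplicity more than `k`. -/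
lemma many {n m k : ℕ} (L : Fin n ⊕ Fin m → Finset ℕ) (hL : ∀ v, (L v).card = k) (hk : 1 ≤ k)
    (hnm : n + m + 2 * n ^ 2 ≤ 2 * k) (hn : 1 ≤ n) (hq : k ≤ n * (Qs k L).card) :
    ∃ f, IsProportional (K n m) k L f := by
  classical
  have hn2 : n ≤ n ^ 2 := by nlinarith
  have hnm' : n + m < 2 * k := by omega
  set Q := Qs k L with hQ
  have hQpos : 0 < Q.card := by
    by_contra h
    have : Q.card = 0 := by omega
    rw [this] at hq
    omega
  obtain ⟨c0, hc0⟩ := Finset.card_pos.1 hQpos
  rw [hQ, mem_Qs] at hc0
  have hc0' := mult_le L c0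
  have hkn : n < k := by omega
  have hm : 0 < m := by omega
  have hnem : Nonempty (Fin m) := ⟨⟨0, hm⟩⟩
  have hne : Nonempty (Fin n ⊕ Fin m) := ⟨Sum.inl ⟨0, hn⟩⟩
  -- a matching of the popular colours
  obtain ⟨h, hinj, hM⟩ := hallOn (Ps k L) (fun c => univ.filter fun v => c ∈ L v) (by
    intro S hS
    set U := S.biUnion (fun c => univ.filter fun v => c ∈ L v) with hU
    have hsum := double_count (T := U) (M := fun v => S.filter fun c => c ∈ L v) (N := S)
      (fun v _ => Finset.filter_subset _ _)
    have hup : ∑ v ∈ U, (S.filter fun c => c ∈ L v).card ≤ k * U.card := by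
      have : ∀ v ∈ U, (S.filter fun c => c ∈ L v).card ≤ k := by
        intro v _
        rw [← hL v]
        apply Finset.card_le_card
        intro c hc
        rw [Finset.mem_filter] at hc
        exact hc.2
      refine (Finset.sum_le_sum this).trans ?_
      rw [Finset.sum_const, smul_eq_mul, mul_comm]
    have hlow : k * S.card ≤
        ∑ c ∈ S, (U.filter fun v => c ∈ S.filter fun c => c ∈ L v).card := by
      have h1 : ∀ c ∈ S, k ≤ (U.filter fun v => c ∈ S.filter fun c => c ∈ L v).card := by
        intro c hc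
        have h2 : k ≤ mult L c := (mem_Ps.1 (hS hc)).2
        have h3 : (U.filter fun v => c ∈ S.filter fun c => c ∈ L v) =
            univ.filter fun v => c ∈ L v := by
          ext v
          simp only [Finset.mem_filter, hU, Finset.mem_biUnion, Finset.mem_univ, true_and]
          constructor
          · rintro ⟨-, -, h⟩
            exact h
          · intro h
            exact ⟨⟨c, hc, h⟩, hc, h⟩
        rw [h3]
        exact h2
      have h2 := Finset.sum_le_sum h1
      rw [Finset.sum_const, smul_eq_mul] at h2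
      rw [mul_comm k]
      exact h2
    have h5 : k * S.card ≤ k * U.card := by omega
    exact Nat.le_of_mul_le_mul_left h5 hk)
  -- the colours of the small side
  have hgA : ∃ g : Fin n → ℕ, Function.Injective g ∧ ∀ a, g a ∈ L (Sum.inl a) := by
    apply (Finset.all_card_le_biUnion_card_iff_exists_injective fun a => L (Sum.inl a)).1
    intro s
    rcases s.eq_empty_or_nonempty with rfl | ⟨a, ha⟩
    · simp
    · have h1 : s.card ≤ n := (Finset.card_le_univ s).trans (by simp)
      have h2 := Finset.card_le_card (Finset.subset_biUnion_of_mem (fun a => L (Sum.inl a)) ha)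
      rw [hL] at h2
      omega
  obtain ⟨g, hg, hgL⟩ := hgA
  obtain ⟨g', hg', hg'L, hg'P⟩ := mendelsohnDulmage g hg
    {c : ℕ | c ∈ Ps k L ∧ ∃ a : Fin n, h c = Sum.inl a}
    (fun c => Sum.elim (fun a => a) (fun _ => ⟨0, hn⟩) (h c)) (by
      rintro c ⟨hc, a, ha⟩ c' ⟨hc', a', ha'⟩ hcc
      simp only [ha, ha', Sum.elim_inl] at hcc
      apply hinj hc hc'
      rw [ha, ha', hcc])
    (fun a c => c ∈ L (Sum.inl a)) hgL (by
      rintro c ⟨hc, a, ha⟩
      simp only [ha, Sum.elim_inl]
      have := hM c hc
      rw [ha, Finset.mem_filter] at this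
      exact this.2)
  set F := (univ : Finset (Fin n)).image g' with hF
  have hFcard : F.card ≤ n := Finset.card_image_le.trans (by simp)
  let M : Fin m → Finset ℕ := fun b => L (Sum.inr b) \ F
  have H1 : ∀ T : Finset (Fin m), T.card ≤ (T.biUnion M).card + ((T.biUnion M) ∩ Q).card := by
    intro T
    set N := T.biUnion fun b => L (Sum.inr b) with hN
    have hNM : T.biUnion M = N \ F := by
      ext c
      simp only [hN, M, Finset.mem_biUnion, Finset.mem_sdiff]
      constructor
      · rintro ⟨b, hb, h1, h2⟩
        exact ⟨⟨b, hb, h1⟩, h2⟩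
      · rintro ⟨⟨b, hb, h1⟩, h2⟩
        exact ⟨b, hb, h1, h2⟩
    rw [hNM]
    by_cases hQN : Q ⊆ N
    · have hsum := double_count T (fun b => L (Sum.inr b)) N
        (fun x hx => Finset.subset_biUnion_of_mem (fun b => L (Sum.inr b)) hx)
      have hlow : ∑ b ∈ T, (L (Sum.inr b)).card = k * T.card := by
        rw [Finset.sum_congr rfl fun b _ => hL (Sum.inr b), Finset.sum_const, smul_eq_mul,
          mul_comm]
      have hup : ∑ c ∈ N, (T.filter fun b => c ∈ L (Sum.inr b)).card ≤
          k * (N \ Q).card + (n + m) * Q.card := by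
        have h1 : ∀ c ∈ N, (T.filter fun b => c ∈ L (Sum.inr b)).card ≤
            if c ∈ Q then n + m else k := by
          intro c _
          have h2 : (T.filter fun b => c ∈ L (Sum.inr b)).card ≤ mult L c := by
            unfold mult
            rw [← Finset.card_map (Function.Embedding.inr : Fin m ↪ Fin n ⊕ Fin m)]
            apply Finset.card_le_card
            intro x hx
            rw [Finset.mem_map] at hx
            obtain ⟨b, hb, rfl⟩ := hx
            rw [Finset.mem_filter] at hb ⊢
            exact ⟨Finset.mem_univ _, hb.2⟩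
          have h3 := mult_le L c
          split_ifs with h
          · omega
          · rw [hQ, mem_Qs] at h
            omega
        refine (Finset.sum_le_sum h1).trans ?_
        rw [Finset.sum_ite, Finset.sum_const, Finset.sum_const, smul_eq_mul, smul_eq_mul]
        have h4 : (N.filter fun c => c ∈ Q) = Q := by
          ext c
          rw [Finset.mem_filter]
          exact ⟨fun h => h.2, fun h => ⟨hQN h, h⟩⟩
        have h5 : (N.filter fun c => c ∉ Q) = N \ Q := by
          ext c
          rw [Finset.mem_filter, Finset.mem_sdiff]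
        rw [h4, h5]
        apply le_of_eq
        ring
      have hNQ : (N \ Q).card + Q.card = N.card := by
        rw [Finset.card_sdiff_of_subset hQN]
        exact Nat.sub_add_cancel (Finset.card_le_card hQN)
      have hA : k * T.card + 2 * n ^ 2 * Q.card ≤ k * ((N \ Q).card + 2 * Q.card) := by
        have h6 : (n + m) * Q.card + 2 * n ^ 2 * Q.card ≤ 2 * k * Q.card := by
          rw [← Nat.add_mul]
          exact Nat.mul_le_mul_right _ hnm
        nlinarith
      have hB : k * (2 * n) ≤ 2 * n ^ 2 * Q.card := by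
        have : k * (2 * n) ≤ (n * Q.card) * (2 * n) := Nat.mul_le_mul_right _ hq
        nlinarith
      have hC : k * (T.card + 2 * n) ≤ k * ((N \ Q).card + 2 * Q.card) := by
        rw [mul_add]
        omega
      have hD := Nat.le_of_mul_le_mul_left hC hk
      have hE : N.card ≤ (N \ F).card + n := by
        have := Finset.le_card_sdiff F N
        omega
      have hG : Q.card ≤ ((N \ F) ∩ Q).card + n := by
        have h7 : ((N \ F) ∩ Q) = Q \ F := by
          ext c
          simp only [Finset.mem_inter, Finset.mem_sdiff]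
          exact ⟨fun h => ⟨h.2, h.1.2⟩, fun h => ⟨⟨hQN h.1, h.2⟩, h.1⟩⟩
        rw [h7]
        have := Finset.le_card_sdiff F Q
        omega
      omega
    · rcases T.eq_empty_or_nonempty with hT | ⟨b, hb⟩
      · rw [hT]
        simp
      · rw [Finset.not_subset] at hQN
        obtain ⟨c, hcQ, hcN⟩ := hQN
        have h1 : T.card + mult L c ≤ n + m := by
          unfold mult
          rw [← Finset.card_map (Function.Embedding.inr : Fin m ↪ Fin n ⊕ Fin m),
            ← Finset.card_union_of_disjoint]
          · refine (Finset.card_le_univ _).trans ?_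
            simp
          · rw [Finset.disjoint_left]
            intro x hx hx'
            rw [Finset.mem_map] at hx
            obtain ⟨b', hb', rfl⟩ := hx
            rw [Finset.mem_filter] at hx'
            apply hcN
            rw [hN, Finset.mem_biUnion]
            exact ⟨b', hb', hx'.2⟩
        rw [hQ, mem_Qs] at hcQ
        have h2 : (L (Sum.inr b) \ F).card ≤ (N \ F).card := by
          apply Finset.card_le_card
          apply Finset.sdiff_subset_sdiff _ (Finset.Subset.refl _)
          exact Finset.subset_biUnion_of_mem (fun b => L (Sum.inr b)) hb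
        have h3 := Finset.le_card_sdiff F (L (Sum.inr b))
        rw [hL] at h3
        omega
  have hPA : ∀ c ∈ Ps k L \ F, ∃ b, h c = Sum.inr b := by
    intro c hc
    rw [Finset.mem_sdiff] at hc
    cases hb : h c with
    | inr b => exact ⟨b, rfl⟩
    | inl a =>
      exfalso
      obtain ⟨a', ha'⟩ := hg'P c ⟨hc.1, a, hb⟩
      apply hc.2
      rw [hF, Finset.mem_image]
      exact ⟨a', Finset.mem_univ _, ha'⟩
  obtain ⟨f, hf, hf2, hf1, hf0⟩ := assign M Q (Ps k L \ F) H1
    (fun c => Sum.elim (fun _ => Classical.arbitrary (Fin m)) (fun b => b) (h c)) (by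
      intro c hc c' hc' hcc
      obtain ⟨b, hb⟩ := hPA c hc
      obtain ⟨b', hb'⟩ := hPA c' hc'
      simp only [hb, hb', Sum.elim_inr] at hcc
      apply hinj
      · exact (Finset.mem_sdiff.1 hc).1
      · exact (Finset.mem_sdiff.1 hc').1
      · rw [hb, hb', hcc]) (by
      intro c hc
      obtain ⟨b, hb⟩ := hPA c hc
      simp only [hb, Sum.elim_inr, M]
      rw [Finset.mem_sdiff] at hc ⊢
      have := hM c hc.1
      rw [hb, Finset.mem_filter] at this
      exact ⟨this.2, hc.2⟩)
  have hfF : ∀ b, f b ∉ F := fun b => (Finset.mem_sdiff.1 (hf b)).2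
  have hcount : ∀ c, (univ.filter fun v => Sum.elim g' f v = c).card ≤
      if c ∈ F then 1 else (univ.filter fun b => f b = c).card := by
    intro c
    split_ifs with hc
    · rw [Finset.card_le_one]
      intro x hx y hy
      rw [Finset.mem_filter] at hx hy
      cases x with
      | inr b =>
        exfalso
        apply hfF b
        have : f b = c := by simpa using hx.2
        rw [this]
        exact hc
      | inl a =>
        cases y with
        | inr b =>
          exfalso
          apply hfF b
          have : f b = c := by simpa using hy.2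
          rw [this]
          exact hc
        | inl a' =>
          congr 1
          apply hg'
          have h1 : g' a = c := by simpa using hx.2
          have h2 : g' a' = c := by simpa using hy.2
          rw [h1, h2]
    · rw [← Finset.card_map (Function.Embedding.inr : Fin m ↪ Fin n ⊕ Fin m)]
      apply Finset.card_le_card
      intro x hx
      rw [Finset.mem_filter] at hx
      rw [Finset.mem_map]
      cases x with
      | inl a =>
        exfalso
        apply hc
        rw [hF, Finset.mem_image]
        exact ⟨a, Finset.mem_univ _, by simpa using hx.2⟩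
      | inr b => exact ⟨b, by simpa using hx.2, rfl⟩
  refine ⟨Sum.elim g' f, finish L hk hnm' _ ?_ ?_ ?_ ?_ ?_⟩
  · intro v
    cases v with
    | inl a => exact hg'L a
    | inr b => exact (Finset.mem_sdiff.1 (hf b)).1
  · intro a b hab
    simp only [Sum.elim_inl, Sum.elim_inr] at hab
    apply hfF b
    rw [← hab, hF, Finset.mem_image]
    exact ⟨a, Finset.mem_univ _, rfl⟩
  · intro c
    refine (hcount c).trans ?_
    split_ifs
    · norm_num
    · exact hf2 c
  · intro c hc
    refine (hcount c).trans ?_
    split_ifs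
    · norm_num
    · apply hf1
      rw [hQ, mem_Qs]
      omega
  · intro c hc hkc
    by_cases hcF : c ∈ F
    · rw [hF, Finset.mem_image] at hcF
      obtain ⟨a, -, ha⟩ := hcF
      exact ⟨Sum.inl a, ha⟩
    · obtain ⟨b, hb⟩ := hf0 c (Finset.mem_sdiff.2 ⟨mem_Ps.2 ⟨hc, hkc⟩, hcF⟩)
      exact ⟨Sum.inr b, hb⟩

/-- `K_{n,m}` is proportionally `k`-choosable as soon as `2k ≥ n + m + 2n²`. -/
lemma upper {n m k : ℕ} (hn : 1 ≤ n) (hnm : n + m + 2 * n ^ 2 ≤ 2 * k) :
    PropChoosable (K n m) k := by
  intro L hL
  have hn2 : n ≤ n ^ 2 := by nlinarith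
  rcases lt_or_ge (n * (Qs k L).card) k with h | h
  · exact few L hL (by omega) (by omega) hn h
  · exact many L hL (by omega) hnm hn h

/-- `K_{n,m}` is not proportionally `k`-choosable if `1 ≤ k` and `2k - 1 ≤ m`. -/
lemma lower {n m k : ℕ} (hn : 1 ≤ n) (hk : 1 ≤ k) (hkm : 2 * k ≤ m + 1) :
    ¬ PropChoosable (K n m) k := by
  classical
  intro hch
  let L : Fin n ⊕ Fin m → Finset ℕ := Sum.elim
    (fun a => if (a : ℕ) = 0 then Finset.range k else Finset.Ico k (2 * k))
    (fun b => if (b : ℕ) < 2 * k - 1 then Finset.range k else Finset.Ico k (2 * k))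
  have hL : ∀ v, (L v).card = k := by
    intro v
    cases v with
    | inl a =>
      simp only [L, Sum.elim_inl]
      split_ifs
      · simp
      · rw [Nat.card_Ico]; omega
    | inr b =>
      simp only [L, Sum.elim_inr]
      split_ifs
      · simp
      · rw [Nat.card_Ico]; omega
  obtain ⟨f, hfL, hfp, hfc⟩ := hch L hL
  let a0 : Fin n := ⟨0, hn⟩
  have ha0 : f (Sum.inl a0) ∈ Finset.range k := by
    have := hfL (Sum.inl a0)
    simpa [L, a0] using this
  set c := f (Sum.inl a0) with hc
  have hck : c < k := Finset.mem_range.1 ha0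
  have hmult : mult L c = 2 * k := by
    unfold mult
    have h1 : (univ.filter fun v => c ∈ L v) =
        (univ.filter fun a : Fin n => (a : ℕ) = 0).map Function.Embedding.inl ∪
        (univ.filter fun b : Fin m => (b : ℕ) < 2 * k - 1).map Function.Embedding.inr := by
      ext v
      simp only [Finset.mem_union, Finset.mem_map, Finset.mem_filter, Finset.mem_univ, true_and]
      cases v with
      | inl a =>
        simp only [L, Sum.elim_inl]
        constructor
        · intro h
          left
          refine ⟨a, ?_, rfl⟩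
          by_contra hne
          rw [if_neg hne, Finset.mem_Ico] at h
          omega
        · rintro (⟨a', h1, h2⟩ | ⟨b, -, h2⟩)
          · have : a' = a := by simpa using h2
            subst this
            rw [if_pos h1]
            exact ha0
          · simp at h2
      | inr b =>
        simp only [L, Sum.elim_inr]
        constructor
        · intro h
          right
          refine ⟨b, ?_, rfl⟩
          by_contra hne
          rw [if_neg hne, Finset.mem_Ico] at h
          omega
        · rintro (⟨a', -, h2⟩ | ⟨b', h1, h2⟩)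
          · simp at h2
          · have : b' = b := by simpa using h2
            subst this
            rw [if_pos h1]
            exact ha0
    rw [h1, Finset.card_union_of_disjoint, Finset.card_map, Finset.card_map]
    · have h2 : (univ.filter fun a : Fin n => (a : ℕ) = 0) = {a0} := by
        ext a
        simp only [Finset.mem_filter, Finset.mem_univ, true_and, Finset.mem_singleton]
        exact ⟨fun h => Fin.ext h, fun h => by rw [h]⟩
      have h3 : (univ.filter fun b : Fin m => (b : ℕ) < 2 * k - 1).card = 2 * k - 1 := by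
        rw [Fin.card_filter_val_lt]
        omega
      rw [h2, h3, Finset.card_singleton]
      omega
    · rw [Finset.disjoint_left]
      intro x hx hx'
      rw [Finset.mem_map] at hx hx'
      obtain ⟨a, -, rfl⟩ := hx
      obtain ⟨b, -, h⟩ := hx'
      simp at h
  have hk0 : (k : ℚ) ≠ 0 := by
    have : (0 : ℚ) < k := by exact_mod_cast hk
    exact this.ne'
  have hquot : ((mult L c : ℕ) : ℚ) / (k : ℚ) = ((2 : ℕ) : ℚ) := by
    rw [hmult]
    push_cast
    field_simp
  have hcard := hfc c (by
    rw [Finset.mem_biUnion]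
    exact ⟨Sum.inl a0, Finset.mem_univ _, hfL _⟩)
  rw [hquot, Nat.floor_natCast, Nat.ceil_natCast, or_self] at hcard
  have h1 : 1 < (univ.filter fun v => f v = c).card := by omega
  obtain ⟨v, hv, hne⟩ := Finset.exists_mem_ne h1 (Sum.inl a0)
  rw [Finset.mem_filter] at hv
  have hcv : c ∈ L v := hv.2 ▸ hfL v
  cases v with
  | inl a =>
    simp only [L, Sum.elim_inl] at hcv
    have : (a : ℕ) = 0 := by
      by_contra hne0
      rw [if_neg hne0, Finset.mem_Ico] at hcv
      omega
    apply hne
    congr 1
    exact Fin.ext this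
  | inr b =>
    have hadj : (K n m).Adj (Sum.inl a0) (Sum.inr b) := by
      simp [K]
    exact hfp _ _ hadj hv.2.symm

/-- `m + 2 ≤ 2 χ_pc(K_{n,m}) ≤ m + n + 2n² + 1`, and the least `k` exists. -/
lemma bounds {n m : ℕ} (hn : 1 ≤ n) :
    (1 ≤ chiPC (K n m) ∧ PropChoosable (K n m) (chiPC (K n m))) ∧
    m + 2 ≤ 2 * chiPC (K n m) ∧ 2 * chiPC (K n m) ≤ m + n + 2 * n ^ 2 + 1 := by
  have hn2 : n ≤ n ^ 2 := by nlinarith
  have hk0 : ∃ k0, n + m + 2 * n ^ 2 ≤ 2 * k0 ∧ 2 * k0 ≤ m + n + 2 * n ^ 2 + 1 :=
    ⟨(n + m + 2 * n ^ 2 + 1) / 2, by omega, by omega⟩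
  obtain ⟨k0, h1, h2⟩ := hk0
  have hmem : k0 ∈ {k : ℕ | 1 ≤ k ∧ PropChoosable (K n m) k} := ⟨by omega, upper hn h1⟩
  have hinf : chiPC (K n m) ∈ {k : ℕ | 1 ≤ k ∧ PropChoosable (K n m) k} :=
    Nat.sInf_mem ⟨k0, hmem⟩
  have hle : chiPC (K n m) ≤ k0 := Nat.sInf_le hmem
  refine ⟨hinf, ?_, by omega⟩
  by_contra hcon
  exact lower hn hinf.1 (by omega) hinf.2

/-- **Asymptotic proportional choice number of `K_{n,m}`.** For all `n ≥ 1` and all `m` one has
`m + 2 ≤ 2 χ_pc(K_{n,m}) ≤ m + n + 2n² + 1`; in particular, for every fixed `n ≥ 1`,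
`χ_pc(K_{n,m}) / m` tends to `1/2` as `m` tends to infinity. -/
theorem result :
    (∀ n m : ℕ, 1 ≤ n →
      m + 2 ≤ 2 * chiPC (completeBipartiteGraph (Fin n) (Fin m)) ∧
      2 * chiPC (completeBipartiteGraph (Fin n) (Fin m)) ≤ m + n + 2 * n ^ 2 + 1) ∧
    ∀ n : ℕ, 1 ≤ n → Filter.Tendsto
      (fun m : ℕ => (chiPC (completeBipartiteGraph (Fin n) (Fin m)) : ℝ) / (m : ℝ))
      Filter.atTop (nhds (1 / 2)) := by
  refine ⟨fun n m hn => (bounds hn).2, fun n hn => ?_⟩
  have hup : Filter.Tendsto (fun m : ℕ => (1 / 2 : ℝ) + ((n + 2 * n ^ 2 + 1 : ℝ) / 2) / (m : ℝ))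
      Filter.atTop (nhds (1 / 2)) := by
    have := tendsto_const_div_atTop_nhds_zero_nat ((n + 2 * n ^ 2 + 1 : ℝ) / 2)
    simpa using this.const_add (1 / 2 : ℝ)
  refine tendsto_of_tendsto_of_tendsto_of_le_of_le' tendsto_const_nhds hup ?_ ?_
  · filter_upwards [Filter.eventually_gt_atTop 0] with m hm
    have h := (bounds (m := m) hn).2.1
    have hm' : (0 : ℝ) < m := by exact_mod_cast hm
    rw [le_div_iff₀ hm']
    have : ((m + 2 : ℕ) : ℝ) ≤ ((2 * chiPC (K n m) : ℕ) : ℝ) := by exact_mod_cast h
    push_cast at this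
    simp only [K] at this
    linarith
  · filter_upwards [Filter.eventually_gt_atTop 0] with m hm
    have h := (bounds (m := m) hn).2.2
    have hm' : (0 : ℝ) < m := by exact_mod_cast hm
    rw [div_le_iff₀ hm', add_mul, div_mul_cancel₀ _ hm'.ne']
    have : ((2 * chiPC (K n m) : ℕ) : ℝ) ≤ ((m + n + 2 * n ^ 2 + 1 : ℕ) : ℝ) := by
      exact_mod_cast h
    push_cast at this
    simp only [K] at this
    linarith

end Pool.Agent.Results.MP_f66848_co.HalfLimit
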